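import Pool.Agent.Lib_helper15.STB.F.Uni
import Pool.Agent.Lib_helper15.STB.B.fraC
import Pool.Agent.Lib_helper15.STB.B.lcv
import Pool.Agent.Lib_helper15.STB.B.avr
import Pool.Agent.Lib_helper15.STB.B.csq
import Pool.Agent.Lib_helper15.STB.B.iso
import Pool.Agent.Lib_helper15.STB.B.mec
import Pool.Agent.Lib_helper15.STE.B.zer

/-! # STB: the inequality with the circumscribed ball -/

open MeasureTheory Filter Topology
open scoped InnerProductSpace
open Pool.Agent.Lib_helper15.STE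

namespace STB

theorem bal_hi (K : Set E3) (hK : CB K) (R : ℝ) (hR : K ⊆ Metric.closedBall 0 R) (x y : E3) :
    hi K x ≤ hi K y + R * ‖x - y‖ := by
  have hne : K.Nonempty := hK.int.mono interior_subset
  have hb : BddAbove ((fun z => ⟪z, y⟫_ℝ) '' K) :=
    (hK.comp.image (by fun_prop)).bddAbove
  apply csSup_le (hne.image _)
  rintro _ ⟨z, hz, rfl⟩
  have h1 : ⟪z, y⟫_ℝ ≤ hi K y := le_csSup hb ⟨z, hz, rfl⟩
  have h2 : ⟪z, x - y⟫_ℝ ≤ R * ‖x - y‖ := by
    refine (real_inner_le_norm _ _).trans (mul_le_mul_of_nonneg_right ?_ (norm_nonneg _))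
    simpa using hR hz
  have h3 : ⟪z, x⟫_ℝ = ⟪z, y⟫_ℝ + ⟪z, x - y⟫_ℝ := by
    rw [inner_sub_right]; ring
  show ⟪z, x⟫_ℝ ≤ _
  rw [h3]
  linarith

theorem bal_lip (K : Set E3) (hK : CB K) (R : ℝ) (hR : K ⊆ Metric.closedBall 0 R) (x y : E3) :
    |hi K x - hi K y| ≤ R * ‖x - y‖ := by
  rw [abs_le]
  have h1 := bal_hi K hK R hR x y
  have h2 := bal_hi K hK R hR y x
  rw [norm_sub_rev] at h2
  constructor <;> linarith

theorem bal_cont (K : Set E3) (hK : CB K) (R : ℝ) (hR0 : 0 ≤ R)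
    (hR : K ⊆ Metric.closedBall 0 R) : Continuous (hi K) := by
  have : LipschitzWith ⟨R, hR0⟩ (hi K) := by
    apply LipschitzWith.of_dist_le_mul
    intro x y
    rw [Real.dist_eq, dist_eq_norm]
    exact bal_lip K hK R hR x y
  exact this.continuous

/-- a body in a ball all of whose supporting planes touch the ball is the ball -/
theorem bal_full (K : Set E3) (hK : CB K) (R : ℝ) (hR0 : 0 < R)
    (hR : K ⊆ Metric.closedBall 0 R) (h : ∀ x, ‖x‖ = 1 → hi K x = R) :
    K = Metric.closedBall 0 R := by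
  apply Set.Subset.antisymm hR
  have key : ∀ x : E3, ‖x‖ = 1 → R • x ∈ K := by
    intro x hx
    obtain ⟨h1, h2, h3, h4⟩ := fra_lohi K hK x hx
    obtain ⟨z, hz, hz1⟩ := h3 _ (Set.right_mem_Icc.mpr h1.le)
    rw [h x hx] at hz1
    have hz2 : ‖z‖ ≤ R := by simpa using hR hz
    have : z = R • x := by
      have h5 : ‖z - R • x‖ ^ 2 ≤ 0 := by
        rw [@norm_sub_sq_real, inner_smul_right, hz1, norm_smul, hx, Real.norm_of_nonneg hR0.le]
        nlinarith [norm_nonneg z]
      have h6 : ‖z - R • x‖ = 0 := by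
        have := sq_nonneg ‖z - R • x‖
        exact pow_eq_zero_iff (two_ne_zero) |>.mp (le_antisymm h5 this)
      exact sub_eq_zero.mp (norm_eq_zero.mp h6)
    rwa [← this]
  intro y hy
  have hy1 : ‖y‖ ≤ R := by simpa using hy
  obtain ⟨x, hx, hxy⟩ : ∃ x : E3, ‖x‖ = 1 ∧ y = ‖y‖ • x := by
    rcases eq_or_ne y 0 with h0 | h0
    · exact ⟨e 0, by simp [e], by simp [h0]⟩
    · refine ⟨‖y‖⁻¹ • y, ?_, ?_⟩
      · rw [norm_smul, norm_inv, norm_norm, inv_mul_cancel₀ (norm_ne_zero_iff.mpr h0)]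
      · rw [smul_smul, mul_inv_cancel₀ (norm_ne_zero_iff.mpr h0), one_smul]
  have h1 := key x hx
  have h2 := key (-x) (by rwa [norm_neg])
  have h3 : y = ((1 + ‖y‖ / R) / 2) • (R • x) + ((1 - ‖y‖ / R) / 2) • (R • (-x)) := by
    rw [smul_neg, smul_neg, smul_smul, smul_smul, ← sub_eq_add_neg, ← sub_smul]
    have : (1 + ‖y‖ / R) / 2 * R - (1 - ‖y‖ / R) / 2 * R = ‖y‖ := by
      field_simp
      ring
    rw [this]
    exact hxy
  rw [h3]
  have h4 : ‖y‖ / R ≤ 1 := by rw [div_le_one hR0]; exact hy1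
  have h5 : 0 ≤ ‖y‖ / R := by positivity
  exact hK.conv h1 h2 (by linarith) (by linarith) (by ring)

/-- the estimate in one frame -/
theorem bal_one (K : Set E3) (hK : CB K) (R : ℝ) (hR0 : 0 < R)
    (hR : K ⊆ Metric.closedBall 0 R) (f u : E3) (h : ON f u) :
    kap K * (∫ t, Lt K f u t * √(R ^ 2 - t ^ 2)) ^ 2 ≤ 4 / 3 * R ^ 3 * (volume K).toReal ∧
    (0 < kap K → kap K * (∫ t, Lt K f u t * √(R ^ 2 - t ^ 2)) ^ 2 =
      4 / 3 * R ^ 3 * (volume K).toReal → hi K u = R) := by
  obtain ⟨h1, h2, h3, h4⟩ := fra_lohi K hK u h.nu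
  obtain ⟨z, hz, hz1⟩ := h3 _ (Set.right_mem_Icc.mpr h1.le)
  obtain ⟨z', hz', hz1'⟩ := h3 _ (Set.left_mem_Icc.mpr h1.le)
  have hb : ∀ w ∈ K, |⟪w, u⟫_ℝ| ≤ R := by
    intro w hw
    have h5 := abs_real_inner_le_norm w u
    rw [h.nu, mul_one] at h5
    exact h5.trans (by simpa using hR hw)
  have hhi : hi K u ≤ R := by
    rw [← hz1]; exact (abs_le.mp (hb z hz)).2
  have hlo : -R ≤ lo K u := by
    rw [← hz1']; exact (abs_le.mp (hb z' hz')).1
  obtain ⟨-, l0, lm, ⟨C, lC⟩, lz, lp, -⟩ := lcv_lt K hK f u h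
  have l0' : ∀ t, |Lt K f u t| ≤ C := fun t => by rw [abs_of_nonneg (l0 t)]; exact lC t
  obtain ⟨c1, c2⟩ := csq_main R hR0 _ _ hlo h1 hhi _ lm C l0' lz lp
  obtain ⟨v0, v1⟩ := vol_main K hK f u h
  set X := ∫ t, Lt K f u t * √(R ^ 2 - t ^ 2)
  set L2 := ∫ t in (lo K u)..(hi K u), Lt K f u t ^ 2
  set V := (volume K).toReal
  have e1 : kap K * X ^ 2 ≤ kap K * (4 / 3 * R ^ 3 * L2) := mul_le_mul_of_nonneg_left c1 v0
  have e2 : kap K * (4 / 3 * R ^ 3 * L2) ≤ 4 / 3 * R ^ 3 * V := by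
    calc kap K * (4 / 3 * R ^ 3 * L2) = 4 / 3 * R ^ 3 * (kap K * L2) := by ring
      _ ≤ _ := mul_le_mul_of_nonneg_left v1 (by positivity)
  refine ⟨e1.trans e2, fun hk he => c2 ?_⟩
  have e3 : kap K * X ^ 2 = kap K * (4 / 3 * R ^ 3 * L2) := le_antisymm e1 (by rw [he]; exact e2)
  exact mul_left_cancel₀ hk.ne' e3

theorem bal_zero (K : Set E3) (hK : CB K) (R : ℝ) (hR0 : 0 < R)
    (hR : K ⊆ Metric.closedBall 0 R) (h0 : (0 : E3) ∈ K) :
    kap K * (bd K).toReal ^ 2 ≤ 3 * R * (volume K).toReal ∧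
    (kap K * (bd K).toReal ^ 2 = 3 * R * (volume K).toReal → K = Metric.closedBall 0 R) := by
  obtain ⟨hS4, hS, hV⟩ := uni_S K hK
  have hk := (vol_main K hK _ _ uni_on).1
  rcases hk.eq_or_lt with hk0 | hk0
  · rw [← hk0, zero_mul]
    refine ⟨by positivity, fun h => ?_⟩
    have : 0 < 3 * R * (volume K).toReal := by positivity
    rw [← h] at this
    exact absurd this (lt_irrefl _)
  obtain ⟨Γ, _, H, γ, hH⟩ := STH.haar_exists
  have hP := hH.prob
  obtain ⟨a1, a2⟩ := avr_main hH K hK R hR h0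
  set V := (volume K).toReal
  set S := (bd K).toReal
  set M1 := ∫ x, sh K x ∂sig
  set X := fun g => ∫ t, Lt K (γ g (e 1)) (γ g (e 2)) t * √(R ^ 2 - t ^ 2) with hX
  set B := √(4 / 3 * R ^ 3 * V / kap K) with hB
  have hB0 : 0 < B := Real.sqrt_pos.mpr (by positivity)
  have hB2 : kap K * B ^ 2 = 4 / 3 * R ^ 3 * V := by
    rw [hB, Real.sq_sqrt (by positivity)]
    field_simp
  have hXB : ∀ g, X g ≤ B := by
    intro g
    have h1 := (bal_one K hK R hR0 hR _ _ (rotA_on hH g)).1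
    have h2 : kap K * X g ^ 2 ≤ kap K * B ^ 2 := by rw [hB2]; exact h1
    have h3 := le_of_mul_le_mul_left h2 hk0
    exact le_of_sq_le_sq h3 hB0.le |> fun h => h
  have hE : ∫ g, X g ∂H ≤ B := by
    have := integral_mono a1 (integrable_const B) hXB
    rwa [integral_const, probReal_univ, one_smul] at this
  have h8 : 8 / 3 * R * M1 ≤ B := a2.trans hE
  have hM1 : 0 < M1 := by linarith
  have main : kap K * S ^ 2 * (4 * R ^ 2 / 9) = kap K * (8 / 3 * R * M1) ^ 2 := by
    rw [hS4]; ring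
  have hVB : 3 * R * V * (4 * R ^ 2 / 9) = kap K * B ^ 2 := by
    rw [hB2]; ring
  have h9 : 0 < 4 * R ^ 2 / 9 := by positivity
  constructor
  · have h10 : kap K * S ^ 2 * (4 * R ^ 2 / 9) ≤ 3 * R * V * (4 * R ^ 2 / 9) := by
      rw [main, hVB]
      exact mul_le_mul_of_nonneg_left (pow_le_pow_left₀ (by positivity) h8 2) hk0.le
    exact le_of_mul_le_mul_right h10 h9
  · intro he
    have h10 : (8 / 3 * R * M1) ^ 2 = B ^ 2 := by
      have : kap K * (8 / 3 * R * M1) ^ 2 = kap K * B ^ 2 := by rw [← main, ← hVB, he]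
      exact mul_left_cancel₀ hk0.ne' this
    have h11 : 8 / 3 * R * M1 = B := by
      rwa [pow_left_inj₀ (by positivity) hB0.le two_ne_zero] at h10
    have h12 : ∫ g, (B - X g) ∂H = 0 := by
      rw [integral_sub (integrable_const B) a1, integral_const, probReal_univ, one_smul]
      have : B ≤ ∫ g, X g ∂H := by rw [← h11]; exact a2
      linarith
    have h13 : (fun g => B - X g) =ᵐ[H] 0 := by
      rwa [integral_eq_zero_iff_of_nonneg (fun g => sub_nonneg.mpr (hXB g))
        ((integrable_const B).sub a1)] at h12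
    have h14 : ∀ᵐ g ∂H, hi K (γ g (e 2)) = R := by
      filter_upwards [h13] with g hg
      have hg' : X g = B := by
        have : B - X g = 0 := hg
        linarith
      apply (bal_one K hK R hR0 hR _ _ (rotA_on hH g)).2 hk0
      show kap K * X g ^ 2 = _
      rw [hg', hB2]
    have hc := bal_cont K hK R hR0.le hR
    have hm : AEMeasurable (fun g => γ g (e 2)) H := by
      have h15 : Measurable (fun g => γ g (e 2)) :=
        hH.meas.comp (measurable_id.prodMk measurable_const)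
      exact h15.aemeasurable
    have h15 : ∀ᵐ x ∂sig, hi K x = R := by
      have h16 := STH.avg_point hH (e 2) (by simp [e])
      have h17 : MeasurableSet {x | hi K x = R} := hc.measurable (measurableSet_singleton R)
      rw [← h16, ae_map_iff hm h17]
      exact h14
    apply bal_full K hK R hR0 hR
    have hA : Adm (fun x => hi K (‖x‖⁻¹ • x) - R) := by
      refine ⟨fun x r hr => ?_, R, fun x y hx hy => ?_⟩
      · show hi K (‖r • x‖⁻¹ • (r • x)) - R = hi K (‖x‖⁻¹ • x) - R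
        have : ‖r • x‖⁻¹ • (r • x) = ‖x‖⁻¹ • x := by
          rw [norm_smul, Real.norm_of_nonneg hr.le, smul_smul, mul_inv]
          congr 1
          field_simp
        rw [this]
      · show |hi K (‖x‖⁻¹ • x) - R - (hi K (‖y‖⁻¹ • y) - R)| ≤ _
        rw [hx, hy, inv_one, one_smul, one_smul]
        have : hi K x - R - (hi K y - R) = hi K x - hi K y := by ring
        rw [this]
        exact bal_lip K hK R hR x y
    have hF : ff (fun x => hi K (‖x‖⁻¹ • x) - R) = 0 := by
      rw [ff]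
      have : (fun x => (hi K (‖x‖⁻¹ • x) - R) ^ 2) =ᵐ[sig] 0 := by
        filter_upwards [h15, sigA_sphere] with x hx1 hx2
        show (hi K (‖x‖⁻¹ • x) - R) ^ 2 = 0
        rw [hx2, inv_one, one_smul, hx1, sub_self]
        norm_num
      rw [integral_congr_ae this]
      simp
    intro x hx
    have := zer_main _ hA hF x hx
    have h17 : hi K (‖x‖⁻¹ • x) - R = 0 := this
    rw [hx, inv_one, one_smul] at h17
    linarith

theorem bal_main (K : Set E3) (hK : CB K) (c : E3) (R : ℝ) (h : K ⊆ Metric.closedBall c R) :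
    kap K * (bd K).toReal ^ 2 ≤ 3 * R * (volume K).toReal ∧
    (kap K * (bd K).toReal ^ 2 = 3 * R * (volume K).toReal → K = Metric.closedBall c R) := by
  have hR0 : 0 < R := by
    by_contra hcon
    have h1 : (Metric.closedBall c R).Subsingleton := Metric.subsingleton_closedBall c (not_lt.mp hcon)
    have h2 := (h1.anti h)
    obtain ⟨-, -, hV⟩ := uni_S K hK
    have : volume K = 0 := h2.measure_zero _
    rw [this] at hV
    simp at hV
  obtain ⟨c', hc', hc'1⟩ := mec_main K hK c R h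
  obtain ⟨i1, i2, i3, i4⟩ := iso_main K (LinearIsometryEquiv.refl ℝ E3) (-c') 1 one_pos
  set K' := (fun x => -c' + (1:ℝ) • (LinearIsometryEquiv.refl ℝ E3) x) '' K with hK'
  have hmem : ∀ x, x ∈ K' ↔ x + c' ∈ K := by
    intro x
    constructor
    · rintro ⟨y, hy, rfl⟩
      simpa using hy
    · intro hx
      exact ⟨x + c', hx, by simp⟩
  simp only [one_pow, ENNReal.ofReal_one, one_mul] at i1 i2
  have k1 : K' ⊆ Metric.closedBall 0 R := by
    intro x hx
    have := hc'1 ((hmem x).mp hx)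
    simpa using this
  have k0 : (0 : E3) ∈ K' := (hmem 0).mpr (by simpa using hc')
  obtain ⟨b1, b2⟩ := bal_zero K' (i4 hK) R hR0 k1 k0
  have hkap : kap K' = kap K := by rw [kap, kap, i3]
  rw [hkap, i1, i2] at b1 b2
  refine ⟨b1, fun he => ?_⟩
  have b3 := b2 he
  have k2 : K = Metric.closedBall c' R := by
    ext x
    have := hmem (x - c')
    rw [sub_add_cancel] at this
    rw [← this, b3]
    simp [dist_eq_norm]
  have hcc : c' = c := by
    by_contra hne
    have hd : 0 < ‖c' - c‖ := norm_pos_iff.mpr (sub_ne_zero.mpr hne)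
    have h5 : c' + (R / ‖c' - c‖) • (c' - c) ∈ Metric.closedBall c' R := by
      rw [mem_closedBall_iff_norm, add_sub_cancel_left, norm_smul, norm_div, norm_norm,
        Real.norm_of_nonneg hR0.le, div_mul_cancel₀ _ hd.ne']
    rw [← k2] at h5
    have h6 := h h5
    rw [mem_closedBall_iff_norm] at h6
    have h7 : c' + (R / ‖c' - c‖) • (c' - c) - c = (1 + R / ‖c' - c‖) • (c' - c) := by
      rw [add_smul, one_smul]; abel
    rw [h7, norm_smul, Real.norm_of_nonneg (by positivity), add_mul, one_mul,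
      div_mul_cancel₀ _ hd.ne'] at h6
    linarith
  rw [k2, hcc]

end STB
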