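import Pool.Agent.Lib_helper15.STB.B.fraC
import Pool.Agent.Lib_helper15.STB.B.far1
import Pool.Agent.Lib_helper15.STB.B.far2
import Pool.Agent.Lib_helper15.STB.B.far3

/-! # STB: bodies far from round -/

open MeasureTheory Filter Topology
open scoped InnerProductSpace
open Pool.Agent.Lib_helper15.STE

namespace STB

theorem far_main (K : Set E3) (hK : CB K) (x y n : E3) (hx : x ∈ K) (hy : y ∈ K)
    (hn : ‖n‖ = 1) (h : ∀ z ∈ K, ∀ z' ∈ K, 4000 * ⟪z - z', n⟫_ℝ ≤ ‖x - y‖) :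
    4 * Real.pi / 9 * (sInf (iot K)) ^ 2 < (volume K).toReal ^ 2 / (bd K).toReal ^ 3 := by
  obtain ⟨p, hp, q, hq, u, hD, hu, hor, hw⟩ := far3_main K hK
  obtain ⟨h1, h2, h3, h4⟩ := fra_lohi K hK n hn
  obtain ⟨z, hz, hz1⟩ := h3 _ (Set.right_mem_Icc.mpr h1.le)
  obtain ⟨z', hz', hz1'⟩ := h3 _ (Set.left_mem_Icc.mpr h1.le)
  have h5 : 4000 * (hi K n - lo K n) ≤ ‖q - p‖ := by
    have := h z hz z' hz'
    rw [inner_sub_left, hz1, hz1'] at this
    exact this.trans (hD x hx y hy)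
  rcases le_total (52 * (hi K u - lo K u)) ‖q - p‖ with h6 | h6
  · exact far1_main K hK p q u hp hq hD hu hor hw h6
  · exact far2_main K hK p q u n hp hq hD hu hor h6 hn h5

end STB
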