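import Pool.Agent.Lib_helper15.STB.F.Opn2
import Pool.Agent.Lib_helper15.STB.F.Far
import Pool.Agent.Lib_helper15.STB.B.far3
import Pool.Agent.Lib_helper15.STB.B.ccvA
import Pool.Agent.Lib_helper15.STB.B.cpA
import Pool.Agent.Lib_helper15.STB.B.cpB
import Pool.Agent.Lib_helper15.STB.B.cpC
import Pool.Agent.Lib_helper15.STB.B.cpD
import Pool.Agent.Lib_helper15.STB.B.kbl
import Pool.Agent.Lib_helper15.STB.B.pin
import Pool.Agent.Lib_helper15.STB.B.wdc
import Pool.Agent.Lib_helper15.STB.B.rgA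
import Pool.Agent.Lib_helper15.STB.B.rgB

/-! # STB: compactness -/

open MeasureTheory Filter Topology
open scoped InnerProductSpace
open Pool.Agent.Lib_helper15.STE

namespace STB

/-- sphericity -/
noncomputable def sg (K : Set E3) : ℝ := (volume K).toReal ^ 2 / (bd K).toReal ^ 3

/-- bodies far from round -/
def Far (K : Set E3) : Prop :=
  ∃ x ∈ K, ∃ y ∈ K, ∃ n : E3, ‖n‖ = 1 ∧ ∀ z ∈ K, ∀ z' ∈ K, 4000 * ⟪z - z', n⟫_ℝ ≤ ‖x - y‖

/-- similar copies -/
def Sim (K K' : Set E3) : Prop := ∃ (c : E3) (r : ℝ), 0 < r ∧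
  K' = (fun x => c + r • (LinearIsometryEquiv.refl ℝ E3) x) '' K

theorem cpt_sg_pos (K : Set E3) (hK : CB K) : 0 < sg K := by
  obtain ⟨-, hS, hV⟩ := uni_S K hK
  unfold sg
  positivity

theorem cpt_far (K : Set E3) (hK : CB K) (h : Far K) : 4 * Real.pi / 9 * kap K ^ 2 < sg K := by
  obtain ⟨x, hx, y, hy, n, hn, h⟩ := h
  exact far_main K hK x y n hx hy hn h

theorem cpt_sim (K K' : Set E3) (h : Sim K K') : kap K' = kap K ∧ sg K' = sg K ∧
    (CB K → CB K') := by
  obtain ⟨c, r, hr, rfl⟩ := h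
  obtain ⟨i1, i2, i3, i4⟩ := iso_main K (LinearIsometryEquiv.refl ℝ E3) c r hr
  refine ⟨by rw [kap, kap, i3], ?_, i4⟩
  unfold sg
  rw [i1, i2, ENNReal.toReal_mul, ENNReal.toReal_mul, ENNReal.toReal_ofReal (by positivity),
    ENNReal.toReal_ofReal (by positivity), mul_pow, mul_pow, ← pow_mul, ← pow_mul]
  exact mul_div_mul_left _ _ (by positivity)

theorem cpt_good (K K' : Set E3) (h : Sim K K') (hg : Good K') : Good K := by
  obtain ⟨h1, h2, -⟩ := cpt_sim K K' h
  obtain ⟨g1, g2⟩ := hg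
  change 4 * Real.pi / 9 * kap K' ^ 2 ≤ sg K' at g1
  change 4 * Real.pi / 9 * kap K' ^ 2 = sg K' → _ at g2
  rw [h1, h2] at g1 g2
  refine ⟨g1, fun he => ?_⟩
  obtain ⟨x, s, hs, hx⟩ := g2 he
  obtain ⟨c, r, hr, hK⟩ := h
  refine ⟨r⁻¹ • (x - c), s / r, by positivity, ?_⟩
  ext y
  have h3 : y ∈ K ↔ c + r • y ∈ K' := by
    rw [hK]
    constructor
    · intro hy
      exact ⟨y, hy, rfl⟩
    · rintro ⟨z, hz, hzy⟩
      have h4 : c + r • z = c + r • y := hzy
      rw [add_right_inj] at h4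
      have h5 := smul_right_injective E3 hr.ne' h4
      rwa [← h5]
  rw [h3, hx, mem_closedBall_iff_norm, mem_closedBall_iff_norm]
  have h6 : c + r • y - x = r • (y - r⁻¹ • (x - c)) := by
    rw [smul_sub, smul_smul, mul_inv_cancel₀ hr.ne', one_smul]
    abel
  rw [h6, norm_smul, Real.norm_of_nonneg hr.le, le_div_iff₀ hr, mul_comm]

theorem cpt_norm (K : Set E3) (hK : CB K) (hf : ¬ Far K) : ∃ K' : Set E3, Sim K K' ∧
    K' ⊆ Metric.closedBall 0 1 ∧ ∀ u, ‖u‖ = 1 → 1 / 4000 ≤ hi K' u - lo K' u := by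
  obtain ⟨p, hp, q, hq, u, hD, hu, hor, -⟩ := far3_main K hK
  have hD0 : 0 < ‖q - p‖ := by
    obtain ⟨h1, h2, h3, h4⟩ := fra_lohi K hK u hu
    obtain ⟨z, hz, hz1⟩ := h3 _ (Set.right_mem_Icc.mpr h1.le)
    obtain ⟨z', hz', hz1'⟩ := h3 _ (Set.left_mem_Icc.mpr h1.le)
    have h5 := hD z hz z' hz'
    have h6 : z ≠ z' := by
      rintro rfl
      rw [hz1] at hz1'
      linarith
    exact lt_of_lt_of_le (norm_pos_iff.mpr (sub_ne_zero.mpr h6)) h5
  set D := ‖q - p‖ with hDdef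
  set K' := (fun x => -((1 / D) • p) + (1 / D) • (LinearIsometryEquiv.refl ℝ E3) x) '' K with hK'
  have hsim : Sim K K' := ⟨_, _, by positivity, rfl⟩
  refine ⟨K', hsim, ?_, fun v hv => ?_⟩
  · rintro _ ⟨x, hx, rfl⟩
    have h1 : -((1 / D) • p) + (1 / D) • (LinearIsometryEquiv.refl ℝ E3) x =
        (1 / D) • (x - p) := by
      rw [LinearIsometryEquiv.coe_refl, id, smul_sub]
      abel
    show -((1 / D) • p) + (1 / D) • (LinearIsometryEquiv.refl ℝ E3) x ∈ _
    rw [h1, mem_closedBall_zero_iff, norm_smul, Real.norm_of_nonneg (by positivity),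
      one_div, inv_mul_le_iff₀ hD0, mul_one]
    exact hD x hx p hp
  · unfold Far at hf
    push Not at hf
    obtain ⟨z, hz, z', hz', hzz⟩ := hf q hq p hp v hv
    obtain ⟨h1, h2, h3, h4⟩ := fra_lohi K' ((cpt_sim K K' hsim).2.2 hK) v hv
    have h5 := (h2 _ (Set.mem_image_of_mem _ hz)).2
    have h6 := (h2 _ (Set.mem_image_of_mem _ hz')).1
    rw [LinearIsometryEquiv.coe_refl, id, inner_add_left, real_inner_smul_left] at h5 h6
    rw [inner_sub_left] at hzz
    have h7 : 1 / D * (⟪z, v⟫_ℝ - ⟪z', v⟫_ℝ) ≤ hi K' v - lo K' v := by linarith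
    refine le_trans ?_ h7
    rw [one_div_mul_eq_div, le_div_iff₀ hD0]
    linarith

theorem cpt_main (K : ℕ → Set E3) (hK : ∀ n, CB (K n)) (hf : ∀ n, ¬ Far (K n)) :
    ∃ (K' : ℕ → Set E3) (φ : ℕ → ℕ) (L : Set E3), (∀ n, Sim (K n) (K' n)) ∧ StrictMono φ ∧
      CB L ∧ ∀ δ : ℝ, 0 < δ → ∀ᶠ n in atTop, Nr δ (K' (φ n)) L := by
  choose K' h1 h2 h3 using fun n => cpt_norm (K n) (hK n) (hf n)
  have hcb : ∀ n, CB (K' n) := fun n => (cpt_sim _ _ (h1 n)).2.2 (hK n)
  obtain ⟨φ, hφ, L, hL, h4⟩ := cpA_main K' (fun n => (hcb n).conv) (fun n => (hcb n).comp) h2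
    (1 / 4000) (by norm_num) h3
  exact ⟨K', φ, L, h1, hφ, hL, h4⟩

theorem cpt_lim (K : ℕ → Set E3) (hK : ∀ n, CB (K n)) (L : Set E3) (hL : CB L)
    (h : ∀ δ : ℝ, 0 < δ → ∀ᶠ n in atTop, Nr δ (K n) L) :
    Tendsto (fun n => sg (K n)) atTop (𝓝 (sg L)) ∧
    ∀ ε : ℝ, 0 < ε → ∀ᶠ n in atTop, kap (K n) ≤ kap L + ε := by
  obtain ⟨-, hS, hV⟩ := uni_S L hL
  constructor
  · have hv : Tendsto (fun n => (volume (K n)).toReal) atTop (𝓝 (volume L).toReal) := by
      rw [Metric.tendsto_atTop']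
      intro ε hε
      obtain ⟨δ, hδ, H⟩ := cpD_main L hL (ε / 2) (by positivity)
      obtain ⟨N, hN⟩ := eventually_atTop.mp (h δ hδ)
      refine ⟨N, fun n hn => ?_⟩
      have := (H (K n) (hK n).conv (hK n).comp (hN n hn.le)).2.1
      rw [Real.dist_eq]
      linarith
    have hs : Tendsto (fun n => (bd (K n)).toReal) atTop (𝓝 (bd L).toReal) := by
      rw [Metric.tendsto_atTop']
      intro ε hε
      obtain ⟨δ, hδ, H⟩ := cpD_main L hL (ε / 2) (by positivity)
      obtain ⟨N, hN⟩ := eventually_atTop.mp (h δ hδ)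
      refine ⟨N, fun n hn => ?_⟩
      have := (H (K n) (hK n).conv (hK n).comp (hN n hn.le)).2.2
      rw [Real.dist_eq]
      linarith
    exact (hv.pow 2).div (hs.pow 3) (by positivity)
  · intro ε hε
    obtain ⟨δ, hδ, H⟩ := cpC_main L hL ε hε
    filter_upwards [h δ hδ] with n hn
    exact H (K n) (hK n).conv (hK n).comp hn

theorem cpt_hmt_ball (c : E3) (s r : ℝ) (hs : 0 < s) :
    hmt c s (Metric.closedBall c r) = Metric.closedBall c (s * r) := by
  ext y
  constructor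
  · rintro ⟨x, hx, rfl⟩
    rw [mem_closedBall_iff_norm] at hx ⊢
    show ‖c + s • (x - c) - c‖ ≤ _
    rw [add_sub_cancel_left, norm_smul, Real.norm_of_nonneg hs.le]
    exact mul_le_mul_of_nonneg_left hx hs.le
  · intro hy
    rw [mem_closedBall_iff_norm] at hy
    refine ⟨c + s⁻¹ • (y - c), ?_, ?_⟩
    · rw [mem_closedBall_iff_norm, add_sub_cancel_left, norm_smul, norm_inv,
        Real.norm_of_nonneg hs.le, inv_mul_le_iff₀ hs]
      exact hy
    · show c + s • (c + s⁻¹ • (y - c) - c) = y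
      rw [add_sub_cancel_left, smul_smul, mul_inv_cancel₀ hs.ne', one_smul]
      abel

theorem cpt_ang (f f' u : E3) (h : ON f u) (h' : ON f' u) : ∃ α, f' = tw f u α := by
  obtain ⟨b1, b2⟩ := fra_basis f u h f'
  rw [h'.or, zero_smul, add_zero] at b1
  rw [h'.or, h'.nf] at b2
  set x := ⟪f', f⟫_ℝ
  set y := ⟪f', cr f u⟫_ℝ
  have h1 : x ^ 2 + y ^ 2 = 1 := by linarith
  obtain ⟨α, ha, hb⟩ : ∃ α : ℝ, Real.cos α = x ∧ Real.sin α = -y := by
    have hn : ‖(⟨x, -y⟩ : ℂ)‖ = 1 := by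
      rw [Complex.norm_def, Complex.normSq_mk]
      have : x * x + -y * -y = 1 := by linarith
      rw [this, Real.sqrt_one]
    refine ⟨Complex.arg ⟨x, -y⟩, ?_, ?_⟩
    · rw [Complex.cos_arg, hn, div_one]
      intro h0
      rw [h0, norm_zero] at hn
      exact zero_ne_one hn
    · rw [Complex.sin_arg, hn, div_one]
  refine ⟨α, ?_⟩
  rw [tw, ha, hb, b1]
  module

theorem cpt_shift (K : Set E3) (f u : E3) (h : ON f u) (t α : ℝ) :
    Lt K (tw f u α) u t = Lt K f u t := by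
  have h1 : ∀ ψ, tw (tw f u α) u ψ = tw f u (ψ + α) := by
    intro ψ
    rw [tw, (fra_on f u h α).2, tw, tw, Real.cos_add, Real.sin_add]
    module
  have hper : Function.Periodic (fun ψ => Wd K (tw f u ψ) u t) Real.pi := by
    intro ψ
    show Wd K (tw f u (ψ + Real.pi)) u t = Wd K (tw f u ψ) u t
    have : tw f u (ψ + Real.pi) = - tw f u ψ := by
      rw [tw, tw, Real.cos_add_pi, Real.sin_add_pi]
      module
    rw [this, (ccv_sym K _ u t).1]
  unfold Lt
  simp only [h1]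
  rw [intervalIntegral.integral_comp_add_right (fun ψ => Wd K (tw f u ψ) u t) α, zero_add,
    add_comm Real.pi α]
  have := hper.intervalIntegral_add_eq α 0
  rwa [zero_add] at this

/-- bodies with all sections circular are balls -/
theorem cpt_rig (L : Set E3) (hL : CB L) (h : 1 / (4 * Real.pi) ≤ kap L) :
    ∃ (c : E3) (r : ℝ), 0 < r ∧ L = Metric.closedBall c r := by
  have hpi := Real.pi_pos
  have key : ∀ f u, ON f u → ∀ t ∈ Set.Ioo (lo L u) (hi L u),
      Lt L f u t = Real.pi * Wd L f u t := by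
    intro f u ho t ht
    have h1 := (pin_main L hL f u ho t ht).1
    have h2 : (1 - 4 * Real.pi * kap L) ≤ 0 := by
      rw [div_le_iff₀ (by positivity)] at h
      linarith
    have h3 : (Lt L f u t - Real.pi * Wd L f u t) ^ 2 ≤ 0 :=
      h1.trans (mul_nonpos_of_nonpos_of_nonneg h2 (sq_nonneg _))
    have h4 : (Lt L f u t - Real.pi * Wd L f u t) ^ 2 = 0 := le_antisymm h3 (sq_nonneg _)
    have h5 := pow_eq_zero_iff (two_ne_zero) |>.mp h4
    linarith
  have key2 : ∀ f f' u, ON f u → ON f' u → ∀ t ∈ Set.Ioo (lo L u) (hi L u),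
      Wd L f u t = Wd L f' u t := by
    intro f f' u ho ho' t ht
    obtain ⟨α, rfl⟩ := cpt_ang f f' u ho ho'
    have h1 := key f u ho t ht
    have h2 := key _ u ho' t ht
    rw [cpt_shift L f u ho t α, h1] at h2
    exact mul_left_cancel₀ hpi.ne' h2
  have key3 : ∀ f f' u, ON f u → ON f' u → ∀ t ∈ Set.Icc (lo L u) (hi L u),
      Wd L f u t = Wd L f' u t := by
    intro f f' u ho ho' t ht
    have h1 := wdc_main L hL f u ho
    have h2 := wdc_main L hL f' u ho'
    have hlt := (fra_lohi L hL u ho.nu).1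
    have h3 : Set.EqOn (Wd L f u) (Wd L f' u) (closure (Set.Ioo (lo L u) (hi L u))) := by
      apply Set.EqOn.of_subset_closure (s := Set.Ioo (lo L u) (hi L u))
        (t := closure (Set.Ioo (lo L u) (hi L u))) (fun s hs => key2 f f' u ho ho' s hs)
      · rw [closure_Ioo hlt.ne]; exact h1
      · rw [closure_Ioo hlt.ne]; exact h2
      · exact subset_closure
      · exact subset_rfl
    rw [closure_Ioo hlt.ne] at h3
    exact h3 ht
  obtain ⟨D, hD, r1, r2, r3⟩ := rgA_main L hL key3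
  exact rgB_main L hL D hD r1 r2 r3

/-- Steinhaus' inequality for bodies with nearly circular sections -/
theorem cpt_max : ∃ η : ℝ, 0 < η ∧ ∀ K, CB K → (1 - η) / (4 * Real.pi) ≤ kap K → Good K := by
  obtain ⟨η0, hη0, H⟩ := ste_main
  have hpi := Real.pi_pos
  by_contra hcon
  push Not at hcon
  choose K hK hk hg using fun n : ℕ => hcon (1 / (n + 1)) (by positivity)
  have hf : ∀ n, ¬ Far (K n) := fun n hf => by
    have h1 := cpt_far (K n) (hK n) hf
    exact hg n ⟨h1.le, fun he => absurd he h1.ne⟩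
  obtain ⟨K', φ, L, hs, hφ, hL, hN⟩ := cpt_main K hK hf
  have hcb : ∀ n, CB (K' n) := fun n => (cpt_sim _ _ (hs n)).2.2 (hK n)
  obtain ⟨-, l2⟩ := cpt_lim (fun n => K' (φ n)) (fun n => hcb _) L hL hN
  have hL1 : 1 / (4 * Real.pi) ≤ kap L := by
    apply le_of_forall_pos_le_add
    intro ε hε
    have h1 : Tendsto (fun n : ℕ => (1 - 1 / ((φ n : ℝ) + 1)) / (4 * Real.pi)) atTop
        (𝓝 ((1 - 0) / (4 * Real.pi))) := by
      refine Tendsto.div_const (Tendsto.sub tendsto_const_nhds ?_) _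
      exact (tendsto_one_div_add_atTop_nhds_zero_nat (𝕜 := ℝ)).comp hφ.tendsto_atTop
    rw [sub_zero] at h1
    refine le_of_tendsto h1 ?_
    filter_upwards [l2 ε hε] with n hn
    refine (hk (φ n)).trans ?_
    rw [← (cpt_sim _ _ (hs (φ n))).1]
    exact hn
  obtain ⟨c, r, hr, hLb⟩ := cpt_rig L hL hL1
  have hc : c ∈ interior L := by
    rw [hLb]
    exact Metric.ball_subset_interior_closedBall (Metric.mem_ball_self hr)
  have hm : 0 < min η0 (1 / 2) := lt_min hη0 (by norm_num)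
  obtain ⟨δ, hδ, hB⟩ := cpB_main L hL c hc (min η0 (1 / 2)) hm
    (lt_of_le_of_lt (min_le_right _ _) (by norm_num))
  obtain ⟨n, hn⟩ := (hN δ hδ).exists
  obtain ⟨b1, b2⟩ := hB _ (hcb _).conv (hcb _).comp hn
  have hm2 : min η0 (1 / 2) ≤ 1 / 2 := min_le_right _ _
  rw [hLb, cpt_hmt_ball _ _ _ (by linarith)] at b1 b2
  refine hg (φ n) (cpt_good _ _ (hs (φ n)) (H _ (hcb _).conv (hcb _).comp c r hr ?_ ?_))
  · refine (Metric.closedBall_subset_closedBall ?_).trans b1
    apply mul_le_mul_of_nonneg_right _ hr.le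
    have := min_le_left η0 (1 / 2)
    linarith
  · refine b2.trans (Metric.closedBall_subset_closedBall ?_)
    apply mul_le_mul_of_nonneg_right _ hr.le
    have := min_le_left η0 (1 / 2)
    linarith

/-- Steinhaus' inequality for bodies with a very thin section -/
theorem cpt_min : ∃ η : ℝ, 0 < η ∧ ∀ K, CB K → kap K ≤ η →
    4 * Real.pi / 9 * kap K ^ 2 < sg K := by
  by_contra hcon
  push Not at hcon
  choose K hK hk hg using fun n : ℕ => hcon (1 / (n + 1)) (by positivity)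
  have hf : ∀ n, ¬ Far (K n) := fun n hf => by
    have h1 := cpt_far (K n) (hK n) hf
    exact absurd h1 (not_lt.mpr (hg n))
  obtain ⟨K', φ, L, hs, hφ, hL, hN⟩ := cpt_main K hK hf
  have hcb : ∀ n, CB (K' n) := fun n => (cpt_sim _ _ (hs n)).2.2 (hK n)
  obtain ⟨l1, -⟩ := cpt_lim (fun n => K' (φ n)) (fun n => hcb _) L hL hN
  have h1 : Tendsto (fun n : ℕ => 4 * Real.pi / 9 * (1 / ((φ n : ℝ) + 1)) ^ 2) atTop
      (𝓝 (4 * Real.pi / 9 * 0 ^ 2)) :=
    (((tendsto_one_div_add_atTop_nhds_zero_nat (𝕜 := ℝ)).comp hφ.tendsto_atTop).pow 2).const_mul _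
  have h2 : sg L ≤ 4 * Real.pi / 9 * 0 ^ 2 := by
    refine le_of_tendsto_of_tendsto' l1 h1 fun n => ?_
    obtain ⟨s1, s2, -⟩ := cpt_sim _ _ (hs (φ n))
    show sg (K' (φ n)) ≤ _
    rw [s2]
    refine (hg (φ n)).trans ?_
    have hk0 : 0 ≤ kap (K (φ n)) := (vol_main _ (hK _) _ _ uni_on).1
    apply mul_le_mul_of_nonneg_left _ (by positivity)
    exact pow_le_pow_left₀ hk0 (hk (φ n)) 2
  have h3 := cpt_sg_pos L hL
  norm_num at h2
  linarith

/-- the minimum is attained -/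
theorem cpt_att : ∃ K0, CB K0 ∧ 0 < kap K0 ∧
    ∀ K, CB K → sg K0 * kap K ^ 2 ≤ sg K * kap K0 ^ 2 := by
  have hpi := Real.pi_pos
  by_cases hall : ∀ K, CB K → 4 * Real.pi / 9 * kap K ^ 2 ≤ sg K
  · obtain ⟨k1, k2⟩ := kbl_main 0 1 one_pos
    change sg (Metric.closedBall (0:E3) 1) = _ at k2
    refine ⟨Metric.closedBall 0 1, ⟨convex_closedBall _ _, isCompact_closedBall _ _, ?_⟩, ?_,
      fun K hK => ?_⟩
    · exact ⟨0, Metric.ball_subset_interior_closedBall (Metric.mem_ball_self one_pos)⟩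
    · rw [k1]; positivity
    · rw [k2]
      have h1 := mul_le_mul_of_nonneg_right (hall K hK)
        (sq_nonneg (kap (Metric.closedBall (0:E3) 1)))
      calc 4 * Real.pi / 9 * kap (Metric.closedBall (0:E3) 1) ^ 2 * kap K ^ 2 =
          4 * Real.pi / 9 * kap K ^ 2 * kap (Metric.closedBall (0:E3) 1) ^ 2 := by ring
        _ ≤ _ := h1
  · push Not at hall
    obtain ⟨K1, hK1, hK1'⟩ := hall
    have hpos : ∀ K, CB K → sg K < 4 * Real.pi / 9 * kap K ^ 2 → 0 < kap K := by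
      intro K hK h
      have h1 : 0 ≤ kap K := (vol_main _ hK _ _ uni_on).1
      rcases h1.eq_or_lt with h2 | h2
      · rw [← h2] at h
        have := cpt_sg_pos K hK
        norm_num at h
        linarith
      · exact h2
    set T := {x : ℝ | ∃ K, CB K ∧ 0 < kap K ∧ x = sg K / kap K ^ 2} with hT
    have hTne : T.Nonempty := ⟨_, K1, hK1, hpos K1 hK1 hK1', rfl⟩
    have hTb : BddBelow T := ⟨0, by
      rintro _ ⟨K, hK, hk, rfl⟩
      have := cpt_sg_pos K hK
      positivity⟩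
    set m := sInf T with hm
    have hm1 : m < 4 * Real.pi / 9 := by
      have h1 : m ≤ sg K1 / kap K1 ^ 2 := csInf_le hTb ⟨K1, hK1, hpos K1 hK1 hK1', rfl⟩
      refine lt_of_le_of_lt h1 ?_
      have := hpos K1 hK1 hK1'
      rw [div_lt_iff₀ (by positivity)]
      exact hK1'
    have hm0 : Real.pi / 4 ≤ m := by
      apply le_csInf hTne
      rintro _ ⟨K, hK, hk, rfl⟩
      rw [le_div_iff₀ (by positivity)]
      exact uni_main K hK
    have hseq : ∀ n : ℕ, ∃ K, CB K ∧ 0 < kap K ∧ sg K / kap K ^ 2 < 4 * Real.pi / 9 ∧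
        sg K / kap K ^ 2 < m + 1 / (n + 1) := by
      intro n
      obtain ⟨x, ⟨K, hK, hk, rfl⟩, hx⟩ := exists_lt_of_csInf_lt hTne
        (show sInf T < min (4 * Real.pi / 9) (m + 1 / (n + 1)) by
          apply lt_min hm1
          have : (0:ℝ) < 1 / (n + 1) := by positivity
          linarith)
      exact ⟨K, hK, hk, hx.trans_le (min_le_left _ _), hx.trans_le (min_le_right _ _)⟩
    choose K hK hk h1 h2 using hseq
    have hf : ∀ n, ¬ Far (K n) := fun n hf => by
      have h3 := cpt_far (K n) (hK n) hf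
      have h4 := h1 n
      have := hk n
      rw [div_lt_iff₀ (by positivity)] at h4
      linarith
    obtain ⟨K', φ, L, hs, hφ, hL, hN⟩ := cpt_main K hK hf
    have hcb : ∀ n, CB (K' n) := fun n => (cpt_sim _ _ (hs n)).2.2 (hK n)
    obtain ⟨l1, l2⟩ := cpt_lim (fun n => K' (φ n)) (fun n => hcb _) L hL hN
    have hL0 := cpt_sg_pos L hL
    have hkL : 0 ≤ kap L := (vol_main _ hL _ _ uni_on).1
    -- sg L ≤ m (kap L + ε)^2 for all ε
    have h5 : ∀ ε : ℝ, 0 < ε → sg L ≤ m * (kap L + ε) ^ 2 := by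
      intro ε hε
      have h6 : Tendsto (fun n : ℕ => (m + 1 / ((φ n : ℝ) + 1)) * (kap L + ε) ^ 2) atTop
          (𝓝 ((m + 0) * (kap L + ε) ^ 2)) :=
        (((tendsto_one_div_add_atTop_nhds_zero_nat (𝕜 := ℝ)).comp
          hφ.tendsto_atTop).const_add _).mul_const _
      rw [add_zero] at h6
      refine le_of_tendsto_of_tendsto l1 h6 ?_
      filter_upwards [l2 ε hε] with n hn
      obtain ⟨s1, s2, -⟩ := cpt_sim _ _ (hs (φ n))
      have hn' : kap (K (φ n)) ≤ kap L + ε := by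
        rw [← s1]
        exact hn
      show sg (K' (φ n)) ≤ _
      rw [s2]
      have h7 := (h2 (φ n)).le
      have h8 := hk (φ n)
      rw [div_le_iff₀ (by positivity)] at h7
      refine h7.trans ?_
      apply mul_le_mul_of_nonneg_left (pow_le_pow_left₀ h8.le hn' 2)
      have h13 : (0:ℝ) < 1 / ((φ n : ℝ) + 1) := by positivity
      linarith
    have h9 : sg L ≤ m * kap L ^ 2 := by
      have h10 : Tendsto (fun ε : ℝ => m * (kap L + ε) ^ 2) (𝓝[>] 0)
          (𝓝 (m * (kap L + 0) ^ 2)) := by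
        apply Tendsto.mono_left _ nhdsWithin_le_nhds
        apply Continuous.tendsto
        fun_prop
      rw [add_zero] at h10
      exact ge_of_tendsto h10 (eventually_nhdsWithin_of_forall fun ε hε => h5 ε hε)
    have hkL0 : 0 < kap L := by
      rcases hkL.eq_or_lt with h11 | h11
      · rw [← h11] at h9
        norm_num at h9
        linarith
      · exact h11
    refine ⟨L, hL, hkL0, fun Q hQ => ?_⟩
    have hQ0 : 0 ≤ kap Q := (vol_main _ hQ _ _ uni_on).1
    have hQs := cpt_sg_pos Q hQ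
    rcases hQ0.eq_or_lt with h11 | h11
    · rw [← h11]
      have : sg L * (0:ℝ) ^ 2 = 0 := by ring
      rw [this]
      positivity
    · have h12 : m ≤ sg Q / kap Q ^ 2 := csInf_le hTb ⟨Q, hQ, h11, rfl⟩
      rw [le_div_iff₀ (by positivity)] at h12
      calc sg L * kap Q ^ 2 ≤ m * kap L ^ 2 * kap Q ^ 2 :=
            mul_le_mul_of_nonneg_right h9 (by positivity)
        _ = m * kap Q ^ 2 * kap L ^ 2 := by ring
        _ ≤ sg Q * kap L ^ 2 := mul_le_mul_of_nonneg_right h12 (by positivity)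

end STB
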