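import Pool.Agent.Lib_helper15.STB.F.Uni
import Pool.Agent.Lib_helper15.STB.B.fraC
import Pool.Agent.Lib_helper15.STB.B.sec
import Pool.Agent.Lib_helper15.STB.B.lcv
import Pool.Agent.Lib_helper15.STB.B.wid
import Pool.Agent.Lib_helper15.STB.B.per
import Pool.Agent.Lib_helper15.STB.B.iso
import Pool.Agent.Lib_helper15.STB.B.ellA
import Pool.Agent.Lib_helper15.STB.B.ellB
import Pool.Agent.Lib_helper15.STB.B.ellC
import Pool.Agent.Lib_helper15.STB.B.ellE
import Pool.Agent.Lib_helper15.STE.F.Top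
import Pool.Agent.Lib_helper59.REVMF.Top

/-! # STB: open neighbourhoods of ellipsoids and of bodies of revolution -/

open MeasureTheory Filter Topology
open scoped InnerProductSpace
open Pool.Agent.Lib_helper15.STE

namespace STB

/-- the conclusion -/
def Good (K : Set E3) : Prop :=
  4 * Real.pi / 9 * (sInf (iot K)) ^ 2 ≤ (volume K).toReal ^ 2 / (bd K).toReal ^ 3 ∧
    (4 * Real.pi / 9 * (sInf (iot K)) ^ 2 = (volume K).toReal ^ 2 / (bd K).toReal ^ 3 →
      ∃ (c : E3) (r : ℝ), 0 < r ∧ K = Metric.closedBall c r)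

/-- homothetic copy -/
def hom (c : E3) (s : ℝ) (K : Set E3) : Set E3 := (fun x => c + s • (x - c)) '' K

/-- margin -/
def Mg (lam : ℝ) (K0 : Set E3) : Prop :=
  ∀ K, CB K → K0 ⊆ K → ∃ J : ℝ, 0 ≤ J ∧ kap K * J ≤ (volume K).toReal ∧
    lam * (4 * Real.pi / 9) * (bd K0).toReal ^ 3 ≤ J ^ 2

/-- near a ball -/
def NB (ε : ℝ) (K0 : Set E3) : Prop :=
  ∃ (x : E3) (r : ℝ), 0 < r ∧ Metric.closedBall x ((1 - ε) * r) ⊆ K0 ∧
    K0 ⊆ Metric.closedBall x ((1 + 2 * ε) * r)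

theorem opn_hom (c : E3) (s : ℝ) (K : Set E3) :
    hom c s K = (fun x => (c - s • c) + s • (LinearIsometryEquiv.refl ℝ E3) x) '' K := by
  unfold hom
  congr 1
  funext x
  rw [LinearIsometryEquiv.coe_refl, id, smul_sub]
  abel

theorem opn_cb (K0 K : Set E3) (h0 : CB K0) (hc : Convex ℝ K) (hk : IsCompact K)
    (h : K0 ⊆ K) : CB K := ⟨hc, hk, h0.int.mono (interior_mono h)⟩

/-- the margin case -/
theorem opn_margin (lam η : ℝ) (hη : 0 ≤ η) (h6 : (1 + η) ^ 6 < lam)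
    (K0 K : Set E3) (c : E3) (h0 : CB K0) (hM : Mg lam K0) (hc : Convex ℝ K) (hk : IsCompact K)
    (h : K0 ⊆ K) (h' : K ⊆ hom c (1 + η) K0) :
    4 * Real.pi / 9 * (sInf (iot K)) ^ 2 < (volume K).toReal ^ 2 / (bd K).toReal ^ 3 := by
  have hK := opn_cb K0 K h0 hc hk h
  obtain ⟨-, hS, hV⟩ := uni_S K hK
  obtain ⟨J, hJ0, hJ1, hJ2⟩ := hM K hK h
  have hs : 0 < 1 + η := by linarith
  obtain ⟨i1, i2, i3, i4⟩ := iso_main K0 (LinearIsometryEquiv.refl ℝ E3) (c - (1 + η) • c)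
    (1 + η) hs
  rw [← opn_hom] at i1 i4
  have hmono := cmo_mono K _ hK (i4 h0) h'
  rw [i1] at hmono
  have hfin : ENNReal.ofReal ((1 + η) ^ 2) * bd K0 ≠ ⊤ :=
    ENNReal.mul_ne_top ENNReal.ofReal_ne_top (cmo_pos K0 h0).2.1
  have h1 := ENNReal.toReal_mono hfin hmono
  rw [ENNReal.toReal_mul, ENNReal.toReal_ofReal (by positivity)] at h1
  obtain ⟨-, hS0, -⟩ := uni_S K0 h0
  have hk0 : 0 ≤ kap K := (vol_main K hK _ _ uni_on).1
  change 4 * Real.pi / 9 * (kap K) ^ 2 < _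
  set S := (bd K).toReal
  set S0 := (bd K0).toReal
  set V := (volume K).toReal
  have hpi := Real.pi_pos
  rw [lt_div_iff₀ (by positivity)]
  rcases hk0.eq_or_lt with h2 | h2
  · rw [← h2]
    have : 4 * Real.pi / 9 * (0:ℝ) ^ 2 * S ^ 3 = 0 := by ring
    rw [this]
    positivity
  · have h3 : S ^ 3 ≤ (1 + η) ^ 6 * S0 ^ 3 := by
      calc S ^ 3 ≤ ((1 + η) ^ 2 * S0) ^ 3 := pow_le_pow_left₀ hS.le h1 3
        _ = _ := by ring
    have h4 : (1 + η) ^ 6 * S0 ^ 3 < lam * S0 ^ 3 :=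
      mul_lt_mul_of_pos_right h6 (by positivity)
    have h5 : 4 * Real.pi / 9 * S ^ 3 < J ^ 2 := by
      calc 4 * Real.pi / 9 * S ^ 3 < 4 * Real.pi / 9 * (lam * S0 ^ 3) :=
            mul_lt_mul_of_pos_left (h3.trans_lt h4) (by positivity)
        _ = lam * (4 * Real.pi / 9) * S0 ^ 3 := by ring
        _ ≤ J ^ 2 := hJ2
    calc 4 * Real.pi / 9 * kap K ^ 2 * S ^ 3 = kap K ^ 2 * (4 * Real.pi / 9 * S ^ 3) := by ring
      _ < kap K ^ 2 * J ^ 2 := mul_lt_mul_of_pos_left h5 (by positivity)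
      _ = (kap K * J) ^ 2 := by ring
      _ ≤ V ^ 2 := pow_le_pow_left₀ (mul_nonneg hk0 hJ0) hJ1 2

/-- inclusions of balls -/
theorem opn_ball (x y : E3) (r s : ℝ) (hr : 0 ≤ r)
    (h : Metric.closedBall x r ⊆ Metric.closedBall y s) : r + dist x y ≤ s := by
  by_cases hxy : x = y
  · rw [hxy, dist_self, add_zero]
    have h1 : y + r • (e 0) ∈ Metric.closedBall x r := by
      rw [mem_closedBall_iff_norm, hxy, add_sub_cancel_left, norm_smul,
        Real.norm_of_nonneg hr]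
      simp [e]
    have h2 := h h1
    rw [mem_closedBall_iff_norm, add_sub_cancel_left, norm_smul,
        Real.norm_of_nonneg hr] at h2
    simpa [e] using h2
  · have hd : 0 < ‖x - y‖ := norm_pos_iff.mpr (sub_ne_zero.mpr hxy)
    have h1 : x + (r / ‖x - y‖) • (x - y) ∈ Metric.closedBall x r := by
      rw [mem_closedBall_iff_norm, add_sub_cancel_left, norm_smul, norm_div, norm_norm,
        Real.norm_of_nonneg hr, div_mul_cancel₀ _ hd.ne']
    have h2 := h h1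
    rw [mem_closedBall_iff_norm] at h2
    have h3 : x + (r / ‖x - y‖) • (x - y) - y = (1 + r / ‖x - y‖) • (x - y) := by
      rw [add_smul, one_smul]; abel
    rw [h3, norm_smul, Real.norm_of_nonneg (by positivity), add_mul, one_mul,
      div_mul_cancel₀ _ hd.ne'] at h2
    rw [dist_eq_norm]
    linarith

/-- the case near a ball -/
theorem opn_near (η0 ε η : ℝ) (hε : 0 < ε) (hε1 : ε ≤ 1) (hη : 0 ≤ η) (hηε : η ≤ ε)
    (h16 : 16 * ε ≤ η0)
    (H : ∀ K : Set E3, Convex ℝ K → IsCompact K → ∀ (c : E3) (r : ℝ), 0 < r →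
      Metric.closedBall c ((1 - η0) * r) ⊆ K → K ⊆ Metric.closedBall c ((1 + η0) * r) → Good K)
    (K0 K : Set E3) (c : E3) (hN : NB ε K0) (hc : Convex ℝ K) (hk : IsCompact K)
    (h : K0 ⊆ K) (h' : K ⊆ hom c (1 + η) K0) : Good K := by
  obtain ⟨x, r, hr, h1, h2⟩ := hN
  set x' := c + (1 + η) • (x - c) with hx'
  have h3 : K ⊆ Metric.closedBall x' ((1 + η) * ((1 + 2 * ε) * r)) := by
    intro y hy
    obtain ⟨z, hz, rfl⟩ := h' hy
    have h4 := h2 hz
    rw [mem_closedBall_iff_norm] at h4 ⊢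
    have h5 : c + (1 + η) • (z - c) - x' = (1 + η) • (z - x) := by
      rw [hx', ← sub_sub_sub_cancel_right z x c, smul_sub (1 + η) (z - c) (x - c)]
      abel
    show ‖c + (1 + η) • (z - c) - x'‖ ≤ _
    rw [h5, norm_smul, Real.norm_of_nonneg (by linarith)]
    exact mul_le_mul_of_nonneg_left h4 (by linarith)
  have h4 := opn_ball x x' ((1 - ε) * r) _ (by
    apply mul_nonneg _ hr.le
    linarith) ((h1.trans h).trans h3)
  refine H K hc hk x r hr ?_ ?_
  · refine (Metric.closedBall_subset_closedBall ?_).trans (h1.trans h)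
    apply mul_le_mul_of_nonneg_right _ hr.le
    linarith
  · refine h3.trans (Metric.closedBall_subset_closedBall' ?_)
    rw [dist_comm] at h4
    have h5 : (1 + η) * ((1 + 2 * ε) * r) ≤ (1 + ε) * ((1 + 2 * ε) * r) := by
      apply mul_le_mul_of_nonneg_right _ (by positivity)
      linarith
    have h6 : ε ^ 2 * r ≤ ε * r := by
      apply mul_le_mul_of_nonneg_right _ hr.le
      nlinarith
    have h7 : 16 * ε * r ≤ η0 * r := mul_le_mul_of_nonneg_right h16 hr.le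
    have h8 : 0 < ε * r := by positivity
    nlinarith

/-- both cases -/
theorem opn_of (η0 ε lam : ℝ) (hε : 0 < ε) (hε1 : ε ≤ 1) (h16 : 16 * ε ≤ η0) (hlam : 1 < lam)
    (H : ∀ K : Set E3, Convex ℝ K → IsCompact K → ∀ (c : E3) (r : ℝ), 0 < r →
      Metric.closedBall c ((1 - η0) * r) ⊆ K → K ⊆ Metric.closedBall c ((1 + η0) * r) →
      Good K) :
    ∃ η : ℝ, 0 < η ∧ ∀ η', 0 ≤ η' → η' ≤ η → ∀ (K0 K : Set E3) (c : E3), CB K0 →
      (Mg lam K0 ∨ NB ε K0) → Convex ℝ K → IsCompact K → K0 ⊆ K →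
      K ⊆ hom c (1 + η') K0 → Good K := by
  set η := min ε ((min lam 2 - 1) / 64) with hη
  have hl : 1 < min lam 2 := lt_min hlam (by norm_num)
  have hl2 : min lam 2 ≤ 2 := min_le_right _ _
  have hη0 : 0 < η := lt_min hε (by linarith)
  have hη1 : η ≤ (min lam 2 - 1) / 64 := min_le_right _ _
  have hη2 : η ≤ 1 := hη1.trans (by linarith)
  have h6 : (1 + η) ^ 6 < lam := by
    have h7 : (1 + η) ^ 6 ≤ 1 + 63 * η := by
      have a1 : η ^ 2 ≤ η := by nlinarith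
      have a2 : η ^ 3 ≤ η := by nlinarith [mul_nonneg hη0.le hη0.le]
      have a3 : η ^ 4 ≤ η := by nlinarith [mul_nonneg hη0.le hη0.le, pow_pos hη0 3]
      have a4 : η ^ 5 ≤ η := by nlinarith [pow_pos hη0 4]
      have a5 : η ^ 6 ≤ η := by nlinarith [pow_pos hη0 5]
      have : (1 + η) ^ 6 = 1 + 6 * η + 15 * η ^ 2 + 20 * η ^ 3 + 15 * η ^ 4 + 6 * η ^ 5 +
        η ^ 6 := by ring
      rw [this]
      linarith
    have h8 : 1 + 63 * η < min lam 2 := by linarith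
    exact (h7.trans_lt h8).trans_le (min_le_left _ _)
  refine ⟨η, hη0, fun η' hη'0 hη' K0 K c h0 hor hc hk h h' => ?_⟩
  rcases hor with hM | hN
  · have h6' : (1 + η') ^ 6 < lam :=
      (pow_le_pow_left₀ (by linarith) (by linarith) 6).trans_lt h6
    have h1 := opn_margin lam η' hη'0 h6' K0 K c h0 hM hc hk h h'
    exact ⟨h1.le, fun he => absurd he h1.ne⟩
  · exact opn_near η0 ε η' hε hε1 hη'0 (hη'.trans (min_le_left _ _)) h16 H K0 K c hN hc hk h h'

/-! ## motions -/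

theorem opn_mg_iso (lam : ℝ) (K0 : Set E3) (g : E3 ≃ₗᵢ[ℝ] E3) (c : E3)
    (h : Mg lam ((fun x => c + (1:ℝ) • g x) '' K0)) : Mg lam K0 := by
  intro K hK hs
  obtain ⟨i1, i2, i3, i4⟩ := iso_main K g c 1 one_pos
  obtain ⟨j1, -, -, -⟩ := iso_main K0 g c 1 one_pos
  simp only [one_pow, ENNReal.ofReal_one, one_mul] at i1 i2 j1
  obtain ⟨J, h0, h1, h2⟩ := h _ (i4 hK) (Set.image_mono hs)
  rw [i2] at h1
  rw [j1] at h2
  have h3 : kap ((fun x => c + (1:ℝ) • g x) '' K) = kap K := by rw [kap, kap, i3]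
  rw [h3] at h1
  exact ⟨J, h0, h1, h2⟩

theorem opn_nb_iso (ε : ℝ) (K0 : Set E3) (g : E3 ≃ₗᵢ[ℝ] E3) (c : E3)
    (h : NB ε ((fun x => c + (1:ℝ) • g x) '' K0)) : NB ε K0 := by
  obtain ⟨x, r, hr, h1, h2⟩ := h
  refine ⟨g.symm (x - c), r, hr, fun y hy => ?_, fun y hy => ?_⟩
  · have h3 : c + (1:ℝ) • g y ∈ Metric.closedBall x ((1 - ε) * r) := by
      rw [mem_closedBall_iff_norm] at hy ⊢
      have : c + (1:ℝ) • g y - x = g (y - g.symm (x - c)) := by
        rw [map_sub, g.apply_symm_apply, one_smul]; abel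
      rw [this, g.norm_map]
      exact hy
    obtain ⟨z, hz, hzy⟩ := h1 h3
    have : z = y := by
      have h4 : c + (1:ℝ) • g z = c + (1:ℝ) • g y := hzy
      rw [one_smul, one_smul, add_right_inj] at h4
      exact g.injective h4
    rwa [← this]
  · have h3 := h2 ⟨y, hy, rfl⟩
    rw [mem_closedBall_iff_norm] at h3 ⊢
    have : c + (1:ℝ) • g y - x = g (y - g.symm (x - c)) := by
      rw [map_sub, g.apply_symm_apply, one_smul]; abel
    have h4 : ‖c + (1:ℝ) • g y - x‖ ≤ (1 + 2 * ε) * r := h3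
    rwa [this, g.norm_map] at h4

end STB
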