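import Pool.Agent.Lib_helper15.STB.F.Opn

/-! # STB: open neighbourhoods of ellipsoids and of bodies of revolution, part 2 -/

open MeasureTheory Filter Topology
open scoped InnerProductSpace
open Pool.Agent.Lib_helper15.STE

namespace STB

theorem opn_bd (n : ℕ) (K : Set (EuclideanSpace ℝ (Fin n))) :
    Pool.Agent.Lib_helper59.REV.bd K = bd K := rfl

theorem opn_iot (K : Set E3) : Pool.Agent.Lib_helper59.REV.iot K = iot K := rfl

theorem opn_on20 : ON (e 2) (e 0) := by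
  refine ⟨by simp [e], by simp [e], ?_⟩
  rw [e, e, EuclideanSpace.inner_single_left]
  simp

theorem opn_on21 : ON (e 2) (e 1) := by
  refine ⟨by simp [e], by simp [e], ?_⟩
  rw [e, e, EuclideanSpace.inner_single_left]
  simp

theorem opn_sec (K : Set E3) (t : ℝ) :
    Pool.Agent.Lib_helper59.REV.sec K t = Sc K (e 2) (e 0) t := by
  ext y
  have h : (!₂[t, y 0, y 1] : E3) = y 0 • cr (e 2) (e 0) + y 1 • e 2 + t • e 0 := by
    ext i
    fin_cases i <;> simp [cr, e]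
  show (!₂[t, y 0, y 1] : E3) ∈ K ↔ y 0 • cr (e 2) (e 0) + y 1 • e 2 + t • e 0 ∈ K
  rw [h]

theorem opn_bd_empty (n : ℕ) : bd (∅ : Set (EuclideanSpace ℝ (Fin n))) = 0 := by
  unfold bd
  simp

theorem opn_bd_mono (M M' : Set E2) (hM : Convex ℝ M) (hMc : IsCompact M)
    (hM' : Convex ℝ M') (hMc' : IsCompact M') (h : M ⊆ M') : bd M ≤ bd M' := by
  rcases M.eq_empty_or_nonempty with h0 | h0
  · rw [h0, opn_bd_empty]
    exact zero_le
  · rw [per_eq M hM hMc h0, per_eq M' hM' hMc' (h0.mono h)]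
    apply ENNReal.ofReal_le_ofReal
    have hc : ∀ N : Set E2, Convex ℝ N → IsCompact N → Continuous (wE N) := by
      intro N hN hNc
      obtain ⟨C, hC0, -, hC⟩ := wid_lip N hN hNc
      have : LipschitzWith ⟨C, hC0⟩ (wE N) := by
        apply LipschitzWith.of_dist_le_mul
        intro x y
        rw [Real.dist_eq, Real.dist_eq]
        exact hC x y
      exact this.continuous
    exact intervalIntegral.integral_mono_on Real.pi_pos.le
      ((hc M hM hMc).intervalIntegrable _ _) ((hc M' hM' hMc').intervalIntegrable _ _)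
      fun φ _ => wid_mono M M' h hMc'.isBounded φ

/-- the integral of the squared perimeters of a smaller body -/
theorem opn_int (K0 K : Set E3) (hc0 : Convex ℝ K0) (hk0 : IsCompact K0) (hK : CB K)
    (h : K0 ⊆ K) (f u : E3) (ho : ON f u) :
    ∫⁻ t : ℝ, bd (Sc K0 f u t) ^ 2 ≤
      ENNReal.ofReal (∫ t in (lo K u)..(hi K u), Lt K f u t ^ 2) := by
  obtain ⟨h1, -, -, -⟩ := fra_lohi K hK u ho.nu
  obtain ⟨-, l0, lm, ⟨C, lC⟩, lz, lp, l5⟩ := lcv_lt K hK f u ho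
  have hsub : ∀ t, Sc K0 f u t ⊆ Sc K f u t := fun t y hy => h hy
  have hP : ∀ t, Convex ℝ (Sc K0 f u t) ∧ IsCompact (Sc K0 f u t) := by
    intro t
    obtain ⟨P, hP⟩ := fra_plane f u ho t
    have h2 : Sc K0 f u t = P ⁻¹' K0 := by
      ext y
      rw [Set.mem_preimage, hP]
      rfl
    rw [h2]
    refine ⟨hc0.affine_preimage P.toAffineMap, ?_⟩
    exact (P.isometry.isClosedEmbedding).isCompact_preimage hk0
  have hpt : ∀ t, bd (Sc K0 f u t) ^ 2 ≤
      (Set.Icc (lo K u) (hi K u)).indicator (fun t => ENNReal.ofReal (Lt K f u t ^ 2)) t := by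
    intro t
    obtain ⟨s1, s2, s3, s4, s5⟩ := sec_comp K hK f u ho t
    by_cases ht : t ∈ Set.Icc (lo K u) (hi K u)
    · rw [Set.indicator_of_mem ht, ENNReal.ofReal_pow (l0 t), ← (l5 t ht).1]
      exact pow_le_pow_left' (opn_bd_mono _ _ (hP t).1 (hP t).2 s1 s2 (hsub t)) 2
    · rw [Set.indicator_of_notMem ht]
      have h3 : Sc K0 f u t = ∅ := by
        apply Set.subset_empty_iff.mp
        rw [← (s4 ht).1]
        exact hsub t
      rw [h3, opn_bd_empty]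
      simp
  refine (lintegral_mono hpt).trans ?_
  rw [lintegral_indicator measurableSet_Icc, intervalIntegral.integral_of_le h1.le,
    ← integral_Icc_eq_integral_Ioc]
  apply le_of_eq
  have hint : Integrable (fun t => Lt K f u t ^ 2)
      (volume.restrict (Set.Icc (lo K u) (hi K u))) := by
    refine Measure.integrableOn_of_bounded (M := C ^ 2) ?_ (lm.pow_const 2).aestronglyMeasurable ?_
    · simp
    · refine ae_of_all _ fun t => ?_
      rw [Real.norm_of_nonneg (sq_nonneg _)]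
      exact pow_le_pow_left₀ (l0 t) (lC t) 2
  rw [ofReal_integral_eq_lintegral_ofReal hint (ae_of_all _ fun t => sq_nonneg _)]

/-- the margin for bodies of revolution -/
theorem opn_rev (ε : ℝ) (hε : 0 < ε) (hε1 : ε < 1) : ∃ lam : ℝ, 1 < lam ∧
    ∀ K0 : Set E3, CB K0 → ∀ c v : E3, v ≠ 0 → (∀ x y : E3, ⟪v, x - c⟫_ℝ = ⟪v, y - c⟫_ℝ →
      ‖x - c‖ = ‖y - c‖ → x ∈ K0 → y ∈ K0) → Mg lam K0 ∨ NB ε K0 := by
  obtain ⟨lam, hlam, H⟩ := Pool.Agent.Lib_helper59.REV.topm_main ε hε hε1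
  refine ⟨lam, hlam, fun K0 h0 c v hv hr => ?_⟩
  rcases H K0 h0.conv h0.comp h0.int c v hv hr with ⟨g, hg⟩ | h
  · left
    intro K hK hs
    have hcb : ∀ L : Set E3, CB L → CB (g '' L) := by
      intro L hL
      refine ⟨?_, hL.comp.image g.continuous, ?_⟩
      · have := hL.conv.affine_image (g.toAffineEquiv : E3 →ᵃ[ℝ] E3)
        exact this
      · have h1 : g '' L = g.toHomeomorph '' L := rfl
        rw [h1, ← g.toHomeomorph.image_interior]
        exact hL.int.image _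
    have h1 := hcb K hK
    have h2 := hcb K0 h0
    obtain ⟨-, v1⟩ := vol_main (g '' K) h1 _ _ opn_on20
    have h3 := opn_int (g '' K0) (g '' K) h2.conv h2.comp h1 (Set.image_mono hs) _ _ opn_on20
    set J := ∫ t in (lo (g '' K) (e 0))..(hi (g '' K) (e 0)), Lt (g '' K) (e 2) (e 0) t ^ 2
      with hJ
    have hJ0 : 0 ≤ J := by
      obtain ⟨h4, -, -, -⟩ := fra_lohi (g '' K) h1 (e 0) opn_on20.nu
      exact intervalIntegral.integral_nonneg h4.le fun t _ => sq_nonneg _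
    refine ⟨J, hJ0, ?_, ?_⟩
    · have h4 : kap (g '' K) = kap K := by
        rw [kap, kap, ← opn_iot, ← opn_iot, Pool.Agent.Lib_helper59.REV.isoA_iot]
      rw [h4, Pool.Agent.Lib_helper59.REV.isoA_vol] at v1
      exact v1
    · simp only [opn_sec] at hg
      have h5 : ENNReal.ofReal (lam * (4 * Real.pi / 9)) * bd K0 ^ 3 ≤ ENNReal.ofReal J ^ 2 :=
        hg.trans (pow_le_pow_left' h3 2)
      have h6 : ENNReal.ofReal J ^ 2 ≠ ⊤ := ENNReal.pow_ne_top ENNReal.ofReal_ne_top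
      have h7 := ENNReal.toReal_mono h6 h5
      rw [ENNReal.toReal_mul, ENNReal.toReal_pow, ENNReal.toReal_pow,
        ENNReal.toReal_ofReal hJ0, ENNReal.toReal_ofReal (by positivity)] at h7
      exact h7
  · right
    exact h

/-- the margin for ellipsoids -/
theorem opn_ell (ε : ℝ) (hε : 0 < ε) : ∃ lam : ℝ, 1 < lam ∧
    ∀ a : Fin 3 → ℝ, 0 < a 2 → a 2 ≤ a 1 → a 1 ≤ a 0 → Mg lam (Ell a 1) ∨ NB ε (Ell a 1) := by
  obtain ⟨m, hm, H⟩ := ell_num ε hε
  refine ⟨m, hm, fun a h2 h1 h0 => ?_⟩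
  have ha : ∀ i, 0 < a i := by
    intro i
    fin_cases i
    · exact lt_of_lt_of_le (lt_of_lt_of_le h2 h1) h0
    · exact lt_of_lt_of_le h2 h1
    · exact h2
  obtain ⟨c1, -, c3, c4⟩ := ell_cb a ha 1 one_pos
  rcases le_total ((1 + ε) * a 2) (a 0) with h3 | h3
  · left
    intro K hK hs
    have h4 := H a h2 h1 h0 h3
    have h5 := ell_sec a ha K hK hs
    obtain ⟨-, v1⟩ := vol_main K hK _ _ opn_on21
    set J := ∫ t in (lo K (e 1))..(hi K (e 1)), Lt K (e 2) (e 1) t ^ 2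
    set P := ∫ φ in (0:ℝ)..Real.pi, 2 * √((a 0 * Real.cos φ) ^ 2 + (a 2 * Real.sin φ) ^ 2)
    have h6 : 0 ≤ 4 / 3 * a 1 * P ^ 2 := by
      have := ha 1
      positivity
    refine ⟨J, h6.trans h5, v1, ?_⟩
    have h7 : (bd (Ell a 1)).toReal = 4 * ∫ f, Real.pi * √((a 1 * a 2 * f 0) ^ 2 +
        (a 0 * a 2 * f 1) ^ 2 + (a 0 * a 1 * f 2) ^ 2) ∂sig := by
      rw [(uni_S _ c1).1]
      congr 1
      apply integral_congr_ae
      filter_upwards [sigA_sphere] with f hf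
      exact ell_sh a ha f hf
    rw [h7, mul_assoc]
    exact h4.trans (pow_le_pow_left₀ h6 h5 2)
  · right
    have hmin : min (a 0) (min (a 1) (a 2)) = a 2 := by
      rw [min_eq_right h1, min_eq_right (h1.trans h0)]
    have hmax : max (a 0) (max (a 1) (a 2)) = a 0 := by
      rw [max_eq_left h1, max_eq_left h0]
    rw [hmin, one_mul] at c3
    rw [hmax, one_mul] at c4
    refine ⟨0, a 2, h2, ?_, ?_⟩
    · refine (Metric.closedBall_subset_closedBall ?_).trans c3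
      nlinarith
    · refine c4.trans (Metric.closedBall_subset_closedBall ?_)
      nlinarith

/-- ellipsoid with centre `x0`, the semiaxes `a i` in the directions of the orthonormal basis `v` -/
def GEll (x0 : E3) (v : OrthonormalBasis (Fin 3) ℝ E3) (a : Fin 3 → ℝ) : Set E3 :=
  {x | ∑ i, (⟪v i, x - x0⟫_ℝ / a i) ^ 2 ≤ 1}

theorem opn_sort (a : Fin 3 → ℝ) : ∃ σ : Equiv.Perm (Fin 3),
    a (σ 2) ≤ a (σ 1) ∧ a (σ 1) ≤ a (σ 0) := by
  refine ⟨Tuple.sort (fun i => - a i), ?_⟩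
  have h := Tuple.monotone_sort (fun i => - a i)
  have h1 := h (show (1 : Fin 3) ≤ 2 by decide)
  have h2 := h (show (0 : Fin 3) ≤ 1 by decide)
  simp only [Function.comp] at h1 h2
  constructor <;> linarith

theorem opn_gell (x0 : E3) (v : OrthonormalBasis (Fin 3) ℝ E3) (a : Fin 3 → ℝ)
    (σ : Equiv.Perm (Fin 3)) :
    ∃ (g : E3 ≃ₗᵢ[ℝ] E3) (c : E3),
      (fun x => c + (1:ℝ) • g x) '' GEll x0 v a = Ell (fun i => a (σ i)) 1 := by
  let g : E3 ≃ₗᵢ[ℝ] E3 := (v.reindex σ.symm).repr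
  have hg : ∀ x i, (g x) i = ⟪v (σ i), x⟫_ℝ := by
    intro x i
    show (v.reindex σ.symm).repr x i = _
    rw [OrthonormalBasis.repr_apply_apply, OrthonormalBasis.reindex_apply, Equiv.symm_symm]
  refine ⟨g, -g x0, ?_⟩
  have key : ∀ x, -g x0 + (1:ℝ) • g x = g (x - x0) := by
    intro x
    rw [one_smul, map_sub]
    abel
  have hmem : ∀ x, g (x - x0) ∈ Ell (fun i => a (σ i)) 1 ↔ x ∈ GEll x0 v a := by
    intro x
    show (∑ i, ((g (x - x0)) i / a (σ i)) ^ 2 ≤ (1:ℝ) ^ 2) ↔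
      ∑ i, (⟪v i, x - x0⟫_ℝ / a i) ^ 2 ≤ 1
    have : ∑ i, ((g (x - x0)) i / a (σ i)) ^ 2 = ∑ i, (⟪v i, x - x0⟫_ℝ / a i) ^ 2 := by
      rw [← Equiv.sum_comp σ (fun i => (⟪v i, x - x0⟫_ℝ / a i) ^ 2)]
      refine Finset.sum_congr rfl fun i _ => ?_
      rw [hg]
    rw [this, one_pow]
  ext y
  constructor
  · rintro ⟨x, hx, rfl⟩
    show -g x0 + (1:ℝ) • g x ∈ _
    rw [key]
    exact (hmem x).mpr hx
  · intro hy
    refine ⟨x0 + g.symm y, ?_, ?_⟩
    · rw [← hmem, add_sub_cancel_left, g.apply_symm_apply]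
      exact hy
    · show -g x0 + (1:ℝ) • g (x0 + g.symm y) = y
      rw [key, add_sub_cancel_left, g.apply_symm_apply]

theorem opn_cb_iso (K : Set E3) (g : E3 ≃ₗᵢ[ℝ] E3) (c : E3)
    (h : CB ((fun x => c + (1:ℝ) • g x) '' K)) : CB K := by
  have h1 := (iso_main ((fun x => c + (1:ℝ) • g x) '' K) g.symm (-g.symm c) 1 one_pos).2.2.2 h
  have h2 : (fun x => -g.symm c + (1:ℝ) • g.symm x) '' ((fun x => c + (1:ℝ) • g x) '' K) = K := by
    rw [Set.image_image]
    have : (fun x => -g.symm c + (1:ℝ) • g.symm (c + (1:ℝ) • g x)) = id := by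
      funext x
      rw [one_smul, one_smul, map_add, g.symm_apply_apply, id]
      abel
    rw [this, Set.image_id]
  rwa [h2] at h1

/-- the final statement -/
theorem opn_main : ∃ η : ℝ, 0 < η ∧ ∀ (K0 K : Set E3) (c : E3),
    ((∃ (x0 : E3) (v : OrthonormalBasis (Fin 3) ℝ E3) (a : Fin 3 → ℝ), (∀ i, 0 < a i) ∧
        K0 = GEll x0 v a) ∨
      (CB K0 ∧ ∃ x0 v : E3, v ≠ 0 ∧ ∀ x y : E3, ⟪v, x - x0⟫_ℝ = ⟪v, y - x0⟫_ℝ →
        ‖x - x0‖ = ‖y - x0‖ → x ∈ K0 → y ∈ K0)) →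
    Convex ℝ K → IsCompact K → K0 ⊆ K → K ⊆ hom c (1 + η) K0 → Good K := by
  obtain ⟨η0, hη0, H⟩ := ste_main
  set ε := min η0 1 / 16 with hε
  have hm0 : 0 < min η0 1 := lt_min hη0 one_pos
  have hε0 : 0 < ε := by positivity
  have hm1 : min η0 1 ≤ 1 := min_le_right _ _
  have hε1 : ε < 1 := by linarith
  have h16 : 16 * ε ≤ η0 := by
    have := min_le_left η0 1
    linarith
  obtain ⟨l1, hl1, H1⟩ := opn_ell ε hε0
  obtain ⟨l2, hl2, H2⟩ := opn_rev ε hε0 hε1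
  obtain ⟨n1, hn1, N1⟩ := opn_of η0 ε l1 hε0 hε1.le h16 hl1 H
  obtain ⟨n2, hn2, N2⟩ := opn_of η0 ε l2 hε0 hε1.le h16 hl2 H
  refine ⟨min n1 n2, lt_min hn1 hn2, fun K0 K c h hc hk hs hs' => ?_⟩
  have hmin : 0 ≤ min n1 n2 := (lt_min hn1 hn2).le
  rcases h with ⟨x0, v, a, ha, h⟩ | ⟨h0, x0, v, hv, hr⟩
  · obtain ⟨σ, s1, s2⟩ := opn_sort a
    obtain ⟨g, b, hg⟩ := opn_gell x0 v a σ
    have hcb : CB K0 := by
      apply opn_cb_iso K0 g b
      rw [h, hg]
      exact (ell_cb _ (fun i => ha (σ i)) 1 one_pos).1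
    refine N1 _ hmin (min_le_left _ _) K0 K c hcb ?_ hc hk hs hs'
    rcases H1 (fun i => a (σ i)) (ha _) s1 s2 with h3 | h3
    · left
      apply opn_mg_iso l1 K0 g b
      rw [h, hg]
      exact h3
    · right
      apply opn_nb_iso ε K0 g b
      rw [h, hg]
      exact h3
  · exact N2 _ hmin (min_le_right _ _) K0 K c h0 (H2 K0 h0 x0 v hv hr) hc hk hs hs'

end STB
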