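import Pool.Agent.Lib_helper15.STB.B.fraA
import Pool.Agent.Lib_helper15.STB.B.vol
import Pool.Agent.Lib_helper15.STB.B.key
import Pool.Agent.Lib_helper15.STB.B.flt
import Pool.Agent.Lib_helper15.STB.B.cau
import Pool.Agent.Lib_helper15.STB.B.cmo
import Pool.Agent.Lib_helper15.STB.B.funC
import Pool.Agent.Lib_helper15.STB.B.rotA
import Pool.Agent.Lib_helper15.STB.B.avh
import Pool.Agent.Lib_helper15.STB.B.shmA
import Pool.Agent.Lib_helper15.STB.B.shmB
import Pool.Agent.Lib_helper59.STHF.haaA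
import Pool.Agent.Lib_helper59.STHF.haaB
import Pool.Agent.Lib_helper15.STE.B.sigA
import Pool.Agent.Lib_helper15.STE.B.sigC

/-! # STB: the universal constant -/

open MeasureTheory Filter Topology
open scoped InnerProductSpace
open Pool.Agent.Lib_helper15.STE

namespace STB

theorem uni_on : ON (e 1) (e 2) := by
  refine ⟨by simp [e], by simp [e], ?_⟩
  rw [e, e, EuclideanSpace.inner_single_left]
  simp

/-- integrals of bounded measurable functions on the sphere -/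
theorem uni_int (F : E3 → ℝ) (hF : Measurable F) (C : ℝ) (hC : ∀ x, ‖x‖ = 1 → |F x| ≤ C) :
    Integrable F sig := (sigC_integral F hF C hC).1

theorem uni_S (K : Set E3) (hK : CB K) : (bd K).toReal = 4 * ∫ x, sh K x ∂sig ∧
    0 < (bd K).toReal ∧ 0 < (volume K).toReal := by
  obtain ⟨h1, h2, h3, h4⟩ := cmo_pos K hK
  have h5 : 0 < (bd K).toReal := ENNReal.toReal_pos h1.ne' h2
  refine ⟨?_, h5, ENNReal.toReal_pos h3.ne' h4⟩
  have h6 := cau_eq K hK
  have h7 : 0 ≤ 4 * ∫ x, sh K x ∂sig := by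
    by_contra hcon
    rw [h6, ENNReal.ofReal_of_nonpos (le_of_lt (not_le.mp hcon))] at h5
    simp at h5
  rw [h6, ENNReal.toReal_ofReal h7]

/-- the variance of the shadow function -/
theorem uni_var (K : Set E3) (hK : CB K) :
    ∫ x, (sh K x - ∫ y, sh K y ∂sig) ^ 2 ∂sig =
      ∫ x, sh K x ^ 2 ∂sig - (∫ x, sh K x ∂sig) ^ 2 := by
  have := sigA_prob
  obtain ⟨hc, C, hC⟩ := shm_cont K hK
  have i1 := uni_int _ hc.measurable C hC
  have i2 : Integrable (fun x => sh K x ^ 2) sig := by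
    refine uni_int _ (hc.measurable.pow_const 2) (C ^ 2) fun x hx => ?_
    rw [abs_of_nonneg (sq_nonneg _), ← sq_abs]
    exact pow_le_pow_left₀ (abs_nonneg _) (hC x hx) 2
  set m := ∫ y, sh K y ∂sig with hm
  have h : (fun x => (sh K x - m) ^ 2) = fun x => (sh K x ^ 2 - 2 * m * sh K x) + m ^ 2 := by
    funext x; ring
  have i3 : Integrable (fun x => 2 * m * sh K x) sig := i1.const_mul _
  have i4 : Integrable (fun x => sh K x ^ 2 - 2 * m * sh K x) sig := i2.sub i3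
  rw [h, integral_add i4 (integrable_const _),
    integral_sub i2 i3, integral_const_mul, integral_const, ← hm]
  simp
  ring

theorem uni_num : (3:ℝ) * Real.pi ^ 2 ≤ (4 - Real.pi + √5) ^ 3 := by
  have h1 := Real.pi_lt_d6
  have h2 := Real.pi_gt_d6
  have h3 : (2.236 : ℝ) ≤ √5 := Real.le_sqrt_of_sq_le (by norm_num)
  have h4 : (3.094407 : ℝ) ≤ 4 - Real.pi + √5 := by linarith
  have h5 : (3.094407 : ℝ) ^ 3 ≤ (4 - Real.pi + √5) ^ 3 := pow_le_pow_left₀ (by norm_num) h4 3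
  have h6 : Real.pi ^ 2 ≤ 3.141593 ^ 2 := pow_le_pow_left₀ Real.pi_pos.le h1.le 2
  calc (3:ℝ) * Real.pi ^ 2 ≤ 3 * 3.141593 ^ 2 := by linarith
    _ ≤ (3.094407 : ℝ) ^ 3 := by norm_num
    _ ≤ _ := h5

/-- the bound for flat bodies -/
theorem uni_flat (K : Set E3) (hK : CB K) (f u : E3) (h : ON f u)
    (hL : La K f u < (Real.pi - √5) / 4 * (bd K).toReal) :
    Real.pi / 4 * kap K ^ 2 * (bd K).toReal ^ 3 ≤ (volume K).toReal ^ 2 := by
  obtain ⟨-, hS, hV⟩ := uni_S K hK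
  set S := (bd K).toReal
  have h1 := cau_flat K hK f u h
  have h2 : (4 - Real.pi + √5) / 8 * S ≤ sh K u := by
    have : S ≤ La K f u + 2 * sh K u := h1
    linarith
  have h3 := flt_main K hK u h.nu
  have h4 : 0 ≤ (4 - Real.pi + √5) / 8 * S := by
    have h5 := Real.pi_lt_d6
    have h6 : (0:ℝ) ≤ √5 := Real.sqrt_nonneg _
    apply mul_nonneg _ hS.le
    linarith
  have h5 := pow_le_pow_left₀ h4 h2 3
  have h6 := uni_num
  have hpi := Real.pi_pos
  have hk := sq_nonneg (kap K)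
  refine le_trans ?_ h3
  have h7 : Real.pi / 4 * S ^ 3 ≤ 128 / (3 * Real.pi) * ((4 - Real.pi + √5) / 8 * S) ^ 3 := by
    have h8 : 128 / (3 * Real.pi) * ((4 - Real.pi + √5) / 8 * S) ^ 3 =
        (4 - Real.pi + √5) ^ 3 * (S ^ 3 / (12 * Real.pi)) := by
      field_simp
      ring
    rw [h8]
    have h9 : Real.pi / 4 * S ^ 3 = 3 * Real.pi ^ 2 * (S ^ 3 / (12 * Real.pi)) := by
      field_simp
      ring
    rw [h9]
    exact mul_le_mul_of_nonneg_right h6 (by positivity)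
  calc Real.pi / 4 * kap K ^ 2 * S ^ 3 = kap K ^ 2 * (Real.pi / 4 * S ^ 3) := by ring
    _ ≤ kap K ^ 2 * (128 / (3 * Real.pi) * sh K u ^ 3) := by
        apply mul_le_mul_of_nonneg_left _ hk
        refine h7.trans ?_
        exact mul_le_mul_of_nonneg_left h5 (by positivity)
    _ = _ := by ring

/-- the averaging argument -/
theorem uni_avg (K : Set E3) (hK : CB K) (hκ : 0 < kap K)
    (hL : ∀ f u, ON f u → (Real.pi - √5) / 4 * (bd K).toReal ≤ La K f u) :
    Real.pi / 4 * kap K ^ 2 * (bd K).toReal ^ 3 ≤ (volume K).toReal ^ 2 := by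
  obtain ⟨hS4, hS, hV⟩ := uni_S K hK
  obtain ⟨Γ, _, H, γ, hH⟩ := STH.haar_exists
  have hP := hH.prob
  obtain ⟨hc, C, hC⟩ := shm_cont K hK
  obtain ⟨i1, i2, v1, v2⟩ := funC_main hH (sh K) hc.measurable C hC
  rw [uni_var K hK] at v1
  obtain ⟨j1, j2⟩ := avh_main hH K hK
  set M1 := ∫ x, sh K x ∂sig with hM1
  set M2 := ∫ x, sh K x ^ 2 ∂sig with hM2
  set V := (volume K).toReal
  set S := (bd K).toReal
  have hM1p : 0 < M1 := by linarith
  have hpi := Real.pi_pos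
  have hpi3 := Real.pi_gt_d6
  have h5 : √5 < 3 := by
    rw [Real.sqrt_lt' (by norm_num)]; norm_num
  have h50 : 0 ≤ √5 := Real.sqrt_nonneg _
  set θ := 1 - √5 / Real.pi with hθ
  have hθ0 : 0 < θ := by
    rw [hθ]
    have : √5 / Real.pi < 1 := by
      rw [div_lt_one hpi]; linarith
    linarith
  have hM2p : M1 ^ 2 ≤ M2 := by
    have h1 : (0:ℝ) ≤ ∫ x, (sh K x - M1) ^ 2 ∂sig := integral_nonneg fun x => sq_nonneg _
    have h2 := uni_var K hK
    rw [← hM1, ← hM2] at h2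
    rw [h2] at h1
    linarith
  set c0 := 3 * V ^ 2 / (16 * Real.pi * kap K ^ 2) with hc0
  have hc0p : 0 < c0 := by positivity
  -- the pointwise estimate
  have key : ∀ g, (∫ φ in (0:ℝ)..Real.pi, th K (tw (γ g (e 1)) (γ g (e 2)) φ) (γ g (e 2))) ≤
      c0 * (1 / M1 - (cm (sh K ∘ γ g) 0 - M1) / M1 ^ 2 +
        (cm (sh K ∘ γ g) 0 - M1) ^ 2 / (θ * M1 ^ 3)) := by
    intro g
    have hon := rotA_on hH g
    have h1 := key_main K hK _ _ hon
    have h2 := rotA_La hH K hK g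
    have h3 := hL _ _ hon
    rw [h2] at h1 h3
    set y := cm (sh K ∘ γ g) 0
    set X := ∫ φ in (0:ℝ)..Real.pi, th K (tw (γ g (e 1)) (γ g (e 2)) φ) (γ g (e 2))
    have h4 : θ * M1 ≤ y := by
      have h6 : Real.pi * (θ * M1) = (Real.pi - √5) / 4 * S := by
        rw [hθ, hS4]
        field_simp
      rw [← h6] at h3
      exact le_of_mul_le_mul_left h3 hpi
    have hy : 0 < y := lt_of_lt_of_le (by positivity) h4
    have h7 : X ≤ c0 * (1 / y) := by
      rw [hc0, mul_one_div, div_div, le_div_iff₀ (by positivity)]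
      have : 16 / 3 * kap K ^ 2 * (Real.pi * y) * X ≤ V ^ 2 := h1
      linarith
    refine h7.trans (mul_le_mul_of_nonneg_left ?_ hc0p.le)
    have h8 : 1 / y = 1 / M1 - (y - M1) / M1 ^ 2 + (y - M1) ^ 2 / (M1 ^ 2 * y) := by
      field_simp
      ring
    rw [h8]
    have h9 : (y - M1) ^ 2 / (M1 ^ 2 * y) ≤ (y - M1) ^ 2 / (θ * M1 ^ 3) := by
      apply div_le_div_of_nonneg_left (sq_nonneg _) (by positivity)
      calc θ * M1 ^ 3 = M1 ^ 2 * (θ * M1) := by ring
        _ ≤ M1 ^ 2 * y := mul_le_mul_of_nonneg_left h4 (by positivity)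
    linarith
  have i1' : Integrable (fun g => cm (sh K ∘ γ g) 0 - M1) H := i1.sub (integrable_const _)
  have e1 : ∫ g, (cm (sh K ∘ γ g) 0 - M1) ∂H = 0 := by
    rw [integral_sub i1 (integrable_const _), v2, integral_const]
    simp
  have hI : Integrable (fun g => c0 * (1 / M1 - (cm (sh K ∘ γ g) 0 - M1) / M1 ^ 2 +
        (cm (sh K ∘ γ g) 0 - M1) ^ 2 / (θ * M1 ^ 3))) H :=
    (((integrable_const _).sub (i1'.div_const _)).add (i2.div_const _)).const_mul _
  have h1 := integral_mono j1 hI key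
  have k1 : Integrable (fun g => (cm (sh K ∘ γ g) 0 - M1) / M1 ^ 2) H := i1'.div_const _
  have k2 : Integrable (fun g => 1 / M1 - (cm (sh K ∘ γ g) 0 - M1) / M1 ^ 2) H :=
    (integrable_const _).sub k1
  have k3 : Integrable (fun g => (cm (sh K ∘ γ g) 0 - M1) ^ 2 / (θ * M1 ^ 3)) H :=
    i2.div_const _
  rw [j2, integral_const_mul, integral_add k2 k3, integral_sub (integrable_const _) k1,
    integral_div _ (fun g => cm (sh K ∘ γ g) 0 - M1), e1, integral_const] at h1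
  simp only [probReal_univ, smul_eq_mul, one_mul, zero_div, sub_zero] at h1
  have h2 : ∫ g, (cm (sh K ∘ γ g) 0 - M1) ^ 2 / (θ * M1 ^ 3) ∂H ≤ (M2 - M1 ^ 2) / M1 ^ 3 := by
    rw [integral_div, div_le_div_iff₀ (by positivity) (by positivity)]
    calc (∫ g, (cm (sh K ∘ γ g) 0 - M1) ^ 2 ∂H) * M1 ^ 3 ≤
        (θ * (M2 - M1 ^ 2)) * M1 ^ 3 := mul_le_mul_of_nonneg_right v1 (by positivity)
      _ = _ := by ring
  have h3 : 3 * M2 ≤ c0 * (M2 / M1 ^ 3) := by
    refine h1.trans (mul_le_mul_of_nonneg_left ?_ hc0p.le)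
    have : M2 / M1 ^ 3 = 1 / M1 + (M2 - M1 ^ 2) / M1 ^ 3 := by
      field_simp
      ring
    rw [this]
    linarith
  have hM2pos : 0 < M2 := lt_of_lt_of_le (by positivity) hM2p
  have h4 : 3 * M1 ^ 3 ≤ c0 := by
    rw [← mul_div_assoc, le_div_iff₀ (by positivity)] at h3
    have : (3 * M1 ^ 3) * M2 ≤ c0 * M2 := by linarith
    exact le_of_mul_le_mul_right this hM2pos
  rw [hc0, le_div_iff₀ (by positivity)] at h4
  rw [hS4]
  calc Real.pi / 4 * kap K ^ 2 * (4 * M1) ^ 3 = 3 * M1 ^ 3 * (16 * Real.pi * kap K ^ 2) / 3 := by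
        ring
    _ ≤ 3 * V ^ 2 / 3 := by linarith
    _ = V ^ 2 := by ring

theorem uni_main (K : Set E3) (hK : CB K) :
    Real.pi / 4 * kap K ^ 2 ≤ (volume K).toReal ^ 2 / (bd K).toReal ^ 3 := by
  obtain ⟨hS4, hS, hV⟩ := uni_S K hK
  rw [le_div_iff₀ (by positivity)]
  have hk := (vol_main K hK _ _ uni_on).1
  rcases hk.eq_or_lt with h0 | h0
  · rw [← h0]
    have : Real.pi / 4 * (0:ℝ) ^ 2 * (bd K).toReal ^ 3 = 0 := by ring
    rw [this]
    positivity
  · by_cases hL : ∀ f u, ON f u → (Real.pi - √5) / 4 * (bd K).toReal ≤ La K f u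
    · exact uni_avg K hK h0 hL
    · push Not at hL
      obtain ⟨f, u, h, h1⟩ := hL
      exact uni_flat K hK f u h h1

end STB
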